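import Pool.Agent.Helper2.EG.Stmts

set_option autoImplicit false

namespace Pool.Agent.Helper2.EG

open ArithmeticFunction ArithmeticFunction.vonMangoldt LSeries

/-- indicator of the primes in a residue class -/
noncomputable def dir_u (m : ℕ) (a : ZMod m) (n : ℕ) : ℝ :=
  if n.Prime then (if (n : ZMod m) = a then 1 else 0) else 0

lemma dir_u_nonneg (m : ℕ) (a : ZMod m) (n : ℕ) : 0 ≤ dir_u m a n := by
  unfold dir_u
  split_ifs <;> norm_num

lemma dir_u_zero (m : ℕ) (a : ZMod m) : dir_u m a 0 = 0 := by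
  unfold dir_u
  rw [if_neg Nat.not_prime_zero]

lemma dir_split (m : ℕ) (a : ZMod m) (n : ℕ) :
    residueClass a n = dir_u m a n * Real.log n + (if n.Prime then 0 else residueClass a n) := by
  unfold dir_u
  by_cases hp : n.Prime
  · rw [if_pos hp, if_pos hp, add_zero]
    by_cases ha : (n : ZMod m) = a
    · rw [if_pos ha, one_mul]
      unfold residueClass
      rw [Set.indicator_of_mem]
      · exact vonMangoldt_apply_prime hp
      · exact ha
    · rw [if_neg ha, zero_mul]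
      unfold residueClass
      rw [Set.indicator_of_notMem]
      exact ha
  · rw [if_neg hp, if_neg hp, zero_mul, zero_add]

lemma dir_rc_nonneg (m : ℕ) (a : ZMod m) (n : ℕ) :
    0 ≤ (if n.Prime then 0 else residueClass a n) := by
  split_ifs
  · exact le_rfl
  · exact residueClass_nonneg a n

lemma dir_pow_ge (n : ℕ) (x : ℝ) (hx : 1 ≤ x) : (n : ℝ) ≤ (n : ℝ) ^ x := by
  rcases Nat.eq_zero_or_pos n with h | h
  · subst h
    rw [Nat.cast_zero, Real.zero_rpow (by linarith)]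
  · have h1 : (1 : ℝ) ≤ n := by exact_mod_cast h
    have h2 := Real.rpow_le_rpow_of_exponent_le h1 hx
    rwa [Real.rpow_one] at h2

lemma dir_div_le (n : ℕ) (x : ℝ) (hx : 1 ≤ x) (c : ℝ) (hc : 0 ≤ c) :
    c / (n : ℝ) ^ x ≤ c / n := by
  rcases Nat.eq_zero_or_pos n with h | h
  · subst h
    rw [Nat.cast_zero, Real.zero_rpow (by linarith)]
  · have h1 : (0 : ℝ) < n := by exact_mod_cast h
    exact div_le_div_of_nonneg_left hc h1 (dir_pow_ge n x hx)

lemma dir_np_summable (m : ℕ) (a : ZMod m) (x : ℝ) (hx : 1 ≤ x) :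
    Summable fun n : ℕ => (if n.Prime then 0 else residueClass a n) / (n : ℝ) ^ x := by
  refine Summable.of_nonneg_of_le (fun n => ?_) (fun n => ?_)
    (summable_residueClass_non_primes_div a)
  · exact div_nonneg (dir_rc_nonneg m a n) (Real.rpow_nonneg (Nat.cast_nonneg n) x)
  · exact dir_div_le n x hx _ (dir_rc_nonneg m a n)

lemma dir_rc_summable (m : ℕ) (a : ZMod m) (x : ℝ) (hx : 1 < x) :
    Summable fun n : ℕ => residueClass a n / (n : ℝ) ^ x :=
  summable_real_of_abscissaOfAbsConv_lt <|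
        (abscissaOfAbsConv_residueClass_le_one a).trans_lt <| mod_cast hx

lemma dir_D_summable (m : ℕ) (a : ZMod m) (x : ℝ) (hx : 1 < x) :
    Summable fun n : ℕ => dir_u m a n * Real.log n / (n : ℝ) ^ x := by
  have h1 := (dir_rc_summable m a x hx).sub (dir_np_summable m a x hx.le)
  refine h1.congr (fun n => ?_)
  rw [← sub_div, dir_split m a n]
  congr 1
  rw [← dir_split m a n]
  have := dir_split m a n
  linarith

lemma dir_D_lower (m : ℕ) [NeZero m] (a : ZMod m) (ha : IsUnit a) :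
    ∃ C : ℝ, 0 ≤ C ∧ ∀ x : ℝ, 1 < x → x ≤ 2 →
      (m.totient : ℝ)⁻¹ / (x - 1) - C ≤ ∑' n : ℕ, dir_u m a n * Real.log n / (n : ℝ) ^ x := by
  obtain ⟨C, hC⟩ := LSeries_residueClass_lower_bound ha
  refine ⟨|C| + ∑' n : ℕ, (if n.Prime then 0 else residueClass a n) / (n : ℝ), ?_, ?_⟩
  · refine add_nonneg (abs_nonneg C) (tsum_nonneg (fun n => ?_))
    exact div_nonneg (dir_rc_nonneg m a n) (Nat.cast_nonneg n)
  · intro x hx1 hx2
    have h1 := hC (x := x) ⟨hx1, hx2⟩
    have h2 : ∑' n : ℕ, residueClass a n / (n : ℝ) ^ x =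
        (∑' n : ℕ, dir_u m a n * Real.log n / (n : ℝ) ^ x) +
        ∑' n : ℕ, (if n.Prime then 0 else residueClass a n) / (n : ℝ) ^ x := by
      rw [← (dir_D_summable m a x hx1).tsum_add (dir_np_summable m a x hx1.le)]
      refine tsum_congr (fun n => ?_)
      rw [← add_div, ← dir_split m a n]
    have h3 : ∑' n : ℕ, (if n.Prime then 0 else residueClass a n) / (n : ℝ) ^ x ≤
        ∑' n : ℕ, (if n.Prime then 0 else residueClass a n) / (n : ℝ) := by
      refine Summable.tsum_le_tsum (fun n => ?_) (dir_np_summable m a x hx1.le)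
        (summable_residueClass_non_primes_div a)
      exact dir_div_le n x hx1.le _ (dir_rc_nonneg m a n)
    have h4 := le_abs_self C
    linarith

lemma dir_T_summable (m : ℕ) (a : ZMod m) (hs : Summable fun n : ℕ => dir_u m a n / (n : ℝ))
    (x : ℝ) (hx : 1 ≤ x) : Summable fun n : ℕ => dir_u m a n / (n : ℝ) ^ x := by
  refine Summable.of_nonneg_of_le (fun n => ?_) (fun n => ?_) hs
  · exact div_nonneg (dir_u_nonneg m a n) (Real.rpow_nonneg (Nat.cast_nonneg n) x)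
  · exact dir_div_le n x hx _ (dir_u_nonneg m a n)

lemma dir_T_le (m : ℕ) (a : ZMod m) (hs : Summable fun n : ℕ => dir_u m a n / (n : ℝ))
    (x : ℝ) (hx : 1 ≤ x) :
    ∑' n : ℕ, dir_u m a n / (n : ℝ) ^ x ≤ ∑' n : ℕ, dir_u m a n / (n : ℝ) :=
  Summable.tsum_le_tsum (fun n => dir_div_le n x hx _ (dir_u_nonneg m a n))
    (dir_T_summable m a hs x hx) hs

lemma dir_term (m : ℕ) (a : ZMod m) (n : ℕ) (x y : ℝ) :
    dir_u m a n / (n : ℝ) ^ y + (y - x) * (dir_u m a n * Real.log n / (n : ℝ) ^ y) ≤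
      dir_u m a n / (n : ℝ) ^ x := by
  rcases Nat.eq_zero_or_pos n with h | h
  · subst h
    rw [dir_u_zero]
    simp
  · have hn : (0 : ℝ) < n := by exact_mod_cast h
    have h1 : (n : ℝ) ^ y = (n : ℝ) ^ x * Real.exp ((y - x) * Real.log n) := by
      have h2 : y = x + (y - x) := by ring
      have h3 : (n : ℝ) ^ y = (n : ℝ) ^ x * (n : ℝ) ^ (y - x) := by
        rw [← Real.rpow_add hn, ← h2]
      rw [h3, Real.rpow_def_of_pos hn (y - x), mul_comm (Real.log n) (y - x)]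
    have h4 := Real.add_one_le_exp ((y - x) * Real.log n)
    have hy : (0 : ℝ) < (n : ℝ) ^ y := Real.rpow_pos_of_pos hn y
    have hx : (0 : ℝ) < (n : ℝ) ^ x := Real.rpow_pos_of_pos hn x
    have h5 : dir_u m a n / (n : ℝ) ^ y + (y - x) * (dir_u m a n * Real.log n / (n : ℝ) ^ y) =
        dir_u m a n * (((y - x) * Real.log n + 1) / (n : ℝ) ^ y) := by ring
    have h6 : dir_u m a n / (n : ℝ) ^ x = dir_u m a n * (1 / (n : ℝ) ^ x) := by ring
    rw [h5, h6]
    refine mul_le_mul_of_nonneg_left ?_ (dir_u_nonneg m a n)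
    rw [div_le_div_iff₀ hy hx, one_mul, h1, mul_comm]
    exact mul_le_mul_of_nonneg_left h4 hx.le

lemma dir_step (m : ℕ) (a : ZMod m) (hs : Summable fun n : ℕ => dir_u m a n / (n : ℝ))
    (x y : ℝ) (hx : 1 ≤ x) (hy : 1 < y) :
    (∑' n : ℕ, dir_u m a n / (n : ℝ) ^ y) +
      (y - x) * (∑' n : ℕ, dir_u m a n * Real.log n / (n : ℝ) ^ y) ≤
      ∑' n : ℕ, dir_u m a n / (n : ℝ) ^ x := by
  have h1 := dir_T_summable m a hs y hy.le
  have h2 := (dir_D_summable m a y hy).mul_left (y - x)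
  rw [← tsum_mul_left, ← h1.tsum_add h2]
  exact Summable.tsum_le_tsum (fun n => dir_term m a n x y) (h1.add h2)
    (dir_T_summable m a hs x hx)

lemma dir_not_summable (m : ℕ) [NeZero m] (a : ZMod m) (ha : IsUnit a) :
    ¬ Summable fun n : ℕ => dir_u m a n / (n : ℝ) := by
  intro hs
  obtain ⟨C, hC0, hC⟩ := dir_D_lower m a ha
  have hphi : (0 : ℝ) < (m.totient : ℝ)⁻¹ :=
    inv_pos.mpr (by exact_mod_cast Nat.totient_pos.mpr (Nat.pos_of_ne_zero (NeZero.ne m)))
  have key : ∀ K : ℕ, (K : ℝ) * ((m.totient : ℝ)⁻¹ / 2) - C * (1 - (1 / 2 : ℝ) ^ K) ≤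
      ∑' n : ℕ, dir_u m a n / (n : ℝ) ^ (1 + (1 / 2 : ℝ) ^ K) := by
    intro K
    induction K with
    | zero =>
      rw [pow_zero, Nat.cast_zero]
      have : 0 ≤ ∑' n : ℕ, dir_u m a n / (n : ℝ) ^ (1 + (1 : ℝ)) :=
        tsum_nonneg (fun n => div_nonneg (dir_u_nonneg m a n)
          (Real.rpow_nonneg (Nat.cast_nonneg n) _))
      linarith
    | succ K ih =>
      have hp : (0 : ℝ) < (1 / 2 : ℝ) ^ K := by positivity
      have hp1 : (1 / 2 : ℝ) ^ K ≤ 1 := pow_le_one₀ (by norm_num) (by norm_num)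
      have hpS : (1 / 2 : ℝ) ^ (K + 1) = (1 / 2 : ℝ) ^ K / 2 := by rw [pow_succ]; ring
      have h1 := dir_step m a hs (1 + (1 / 2 : ℝ) ^ (K + 1)) (1 + (1 / 2 : ℝ) ^ K)
        (by rw [hpS]; linarith) (by linarith)
      have h2 := hC (1 + (1 / 2 : ℝ) ^ K) (by linarith) (by linarith)
      have h3 : (1 + (1 / 2 : ℝ) ^ K) - (1 + (1 / 2 : ℝ) ^ (K + 1)) = (1 / 2 : ℝ) ^ K / 2 := by
        rw [hpS]; ring
      rw [h3] at h1
      have h4 : (1 / 2 : ℝ) ^ K / 2 * ((m.totient : ℝ)⁻¹ / (1 + (1 / 2 : ℝ) ^ K - 1) - C) ≤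
          (1 / 2 : ℝ) ^ K / 2 *
            (∑' n : ℕ, dir_u m a n * Real.log n / (n : ℝ) ^ (1 + (1 / 2 : ℝ) ^ K)) :=
        mul_le_mul_of_nonneg_left h2 (by linarith)
      have h5 : (1 / 2 : ℝ) ^ K / 2 * ((m.totient : ℝ)⁻¹ / (1 + (1 / 2 : ℝ) ^ K - 1) - C) =
          (m.totient : ℝ)⁻¹ / 2 - C * ((1 / 2 : ℝ) ^ K / 2) := by
        have h6 : 1 + (1 / 2 : ℝ) ^ K - 1 = (1 / 2 : ℝ) ^ K := by ring
        rw [h6]
        have h7 : (1 / 2 : ℝ) ^ K ≠ 0 := hp.ne'
        field_simp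
      rw [h5] at h4
      push_cast
      rw [hpS] at h1 ⊢
      nlinarith [h1, h4, ih]
  have hlim : ∀ K : ℕ, (K : ℝ) * ((m.totient : ℝ)⁻¹ / 2) ≤
      (∑' n : ℕ, dir_u m a n / (n : ℝ)) + C := by
    intro K
    have h1 := key K
    have h2 := dir_T_le m a hs (1 + (1 / 2 : ℝ) ^ K) (by
      have : (0 : ℝ) < (1 / 2 : ℝ) ^ K := by positivity
      linarith)
    have h3 : C * (1 - (1 / 2 : ℝ) ^ K) ≤ C := by
      have : (0 : ℝ) < (1 / 2 : ℝ) ^ K := by positivity
      nlinarith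
    linarith
  obtain ⟨K, hK⟩ := exists_nat_gt
    (((∑' n : ℕ, dir_u m a n / (n : ℝ)) + C) / ((m.totient : ℝ)⁻¹ / 2))
  have h1 := hlim K
  rw [div_lt_iff₀ (by linarith)] at hK
  linarith

theorem st_DIR : ST_DIR := by
  intro m r hm hr δ hδ
  haveI : NeZero m := ⟨hm.ne'⟩
  have hu : IsUnit ((r : ℕ) : ZMod m) := (ZMod.isUnit_iff_coprime r m).mpr hr
  have hns := dir_not_summable m (r : ZMod m) hu
  rw [not_summable_iff_tendsto_nat_atTop_of_nonneg
    (fun n => div_nonneg (dir_u_nonneg m _ n) (Nat.cast_nonneg n))] at hns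
  obtain ⟨z, hz⟩ := (hns.eventually_ge_atTop (-Real.log δ)).exists
  refine ⟨z, ?_⟩
  have h1 : ∑ i ∈ Finset.range z, dir_u m (r : ZMod m) i / (i : ℝ) =
      ∑ q ∈ (Finset.range z).filter (fun q => q.Prime ∧ q ≡ r [MOD m]), (1 / (q : ℝ)) := by
    rw [Finset.sum_filter]
    refine Finset.sum_congr rfl (fun q _ => ?_)
    unfold dir_u
    by_cases hp : q.Prime
    · by_cases hq : q ≡ r [MOD m]
      · rw [if_pos hp, if_pos ((ZMod.natCast_eq_natCast_iff q r m).mpr hq), if_pos ⟨hp, hq⟩]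
      · rw [if_pos hp, if_neg (fun h => hq ((ZMod.natCast_eq_natCast_iff q r m).mp h)),
          if_neg (fun h => hq h.2), zero_div]
    · rw [if_neg hp, if_neg (fun h => hp h.1), zero_div]
  rw [h1] at hz
  calc (∏ q ∈ (Finset.range z).filter (fun q => q.Prime ∧ q ≡ r [MOD m]), (1 - 1 / (q : ℝ)))
      ≤ ∏ q ∈ (Finset.range z).filter (fun q => q.Prime ∧ q ≡ r [MOD m]),
          Real.exp (-(1 / (q : ℝ))) := by
        refine Finset.prod_le_prod (fun q hq => ?_) (fun q hq => ?_)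
        · have hp := (Finset.mem_filter.mp hq).2.1
          have h2 : (1 : ℝ) ≤ q := by exact_mod_cast hp.one_lt.le
          have h3 : 1 / (q : ℝ) ≤ 1 := by
            rw [div_le_one (by linarith)]
            exact h2
          linarith
        · have := Real.add_one_le_exp (-(1 / (q : ℝ)))
          linarith
    _ = Real.exp (-(∑ q ∈ (Finset.range z).filter (fun q => q.Prime ∧ q ≡ r [MOD m]),
          (1 / (q : ℝ)))) := by
        rw [← Real.exp_sum, Finset.sum_neg_distrib]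
    _ ≤ Real.exp (Real.log δ) := Real.exp_le_exp.mpr (by linarith)
    _ = δ := Real.exp_log hδ

end Pool.Agent.Helper2.EG
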